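import Pool.Agent.H25.EE.TargetsB

/-!
# MP_58ae59_nt, board ee_modules, row CARD: numbers of rows and columns
-/

set_option autoImplicit false

namespace Pool.Agent.H54.EE5.CARD

open Pool.Agent.H25.EE Polynomial Finset

private theorem sum_sq (n : ℕ) :
    ∑ j ∈ Icc (-(n : ℤ)) n, (j : ℚ) ^ 2 = n * (n + 1) * (2 * n + 1) / 3 := by
  induction n with
  | zero => simp
  | succ n ih =>
    have h1 : Icc (-((n + 1 : ℕ) : ℤ)) ((n + 1 : ℕ) : ℤ) =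
        insert (-((n : ℤ) + 1)) (insert ((n : ℤ) + 1) (Icc (-(n : ℤ)) n)) := by
      ext j
      simp only [mem_Icc, mem_insert]
      push_cast
      omega
    rw [h1, sum_insert, sum_insert, ih]
    · push_cast
      ring
    · simp only [mem_Icc]
      omega
    · simp only [mem_insert, mem_Icc]
      omega

private theorem sum_one (J : ℕ) :
    ∑ j ∈ Icc (-(J : ℤ)) J, ((J : ℚ) ^ 2 - (j : ℚ) ^ 2) = J * (4 * (J : ℚ) ^ 2 - 1) / 3 := by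
  rw [sum_sub_distrib, sum_sq, sum_const, Int.card_Icc]
  have h1 : ((J : ℤ) + 1 - -(J : ℤ)).toNat = 2 * J + 1 := by omega
  rw [h1, nsmul_eq_mul]
  push_cast
  ring

private theorem sum_two (J : ℕ) (hJ : 1 ≤ J) (σ : ℚ) :
    ∑ x ∈ nd J, σ * (((J : ℚ) ^ 2 - (x.1 : ℚ) ^ 2) * ((J : ℚ) ^ 2 - (x.2 : ℚ) ^ 2) /
      (J : ℚ) ^ 2) = σ * ((4 * (J : ℚ) ^ 2 - 1) ^ 2 / 9) := by
  have hJ' : (J : ℚ) ≠ 0 := by
    have : (0 : ℚ) < J := by exact_mod_cast hJ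
    exact this.ne'
  rw [← mul_sum, ← sum_div]
  unfold nd
  rw [sum_product]
  simp only
  have h1 : ∑ x ∈ Icc (-(J : ℤ)) J, ∑ y ∈ Icc (-(J : ℤ)) J,
      (((J : ℚ) ^ 2 - (x : ℚ) ^ 2) * ((J : ℚ) ^ 2 - (y : ℚ) ^ 2)) =
      (J * (4 * (J : ℚ) ^ 2 - 1) / 3) * (J * (4 * (J : ℚ) ^ 2 - 1) / 3) := by
    rw [← sum_one, sum_mul_sum]
  rw [h1]
  field_simp
  ring

private theorem sq_le (J : ℕ) (j : ℤ) (hj : j ∈ Icc (-(J : ℤ)) J) :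
    0 ≤ (J : ℚ) ^ 2 - (j : ℚ) ^ 2 ∧ (J : ℚ) ^ 2 - (j : ℚ) ^ 2 ≤ (J : ℚ) ^ 2 := by
  rw [mem_Icc] at hj
  constructor
  · have h1 : (j : ℚ) ^ 2 ≤ (J : ℚ) ^ 2 := by
      apply sq_le_sq'
      · exact_mod_cast hj.1
      · exact_mod_cast hj.2
    linarith
  · have := sq_nonneg (j : ℚ)
    linarith

private theorem arg_bd (J : ℕ) (σ : ℚ) (h0 : 0 ≤ σ) (h1 : σ ≤ 1) (x : ℤ × ℤ) (hx : x ∈ nd J) :
    0 ≤ σ * (((J : ℚ) ^ 2 - (x.1 : ℚ) ^ 2) * ((J : ℚ) ^ 2 - (x.2 : ℚ) ^ 2) / (J : ℚ) ^ 2) ∧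
    σ * (((J : ℚ) ^ 2 - (x.1 : ℚ) ^ 2) * ((J : ℚ) ^ 2 - (x.2 : ℚ) ^ 2) / (J : ℚ) ^ 2) ≤
      (J : ℚ) ^ 2 := by
  unfold nd at hx
  rw [mem_product] at hx
  obtain ⟨a1, a2⟩ := sq_le J x.1 hx.1
  obtain ⟨b1, b2⟩ := sq_le J x.2 hx.2
  constructor
  · positivity
  · rcases eq_or_lt_of_le (sq_nonneg (J : ℚ)) with h | h
    · rw [← h, div_zero, mul_zero]
    · have h2 : ((J : ℚ) ^ 2 - (x.1 : ℚ) ^ 2) * ((J : ℚ) ^ 2 - (x.2 : ℚ) ^ 2) / (J : ℚ) ^ 2 ≤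
          (J : ℚ) ^ 2 := by
        rw [div_le_iff₀ h]
        exact mul_le_mul a2 b2 b1 h.le
      have h3 : 0 ≤ ((J : ℚ) ^ 2 - (x.1 : ℚ) ^ 2) * ((J : ℚ) ^ 2 - (x.2 : ℚ) ^ 2) /
          (J : ℚ) ^ 2 := by positivity
      calc σ * (((J : ℚ) ^ 2 - (x.1 : ℚ) ^ 2) * ((J : ℚ) ^ 2 - (x.2 : ℚ) ^ 2) / (J : ℚ) ^ 2)
          ≤ 1 * (((J : ℚ) ^ 2 - (x.1 : ℚ) ^ 2) * ((J : ℚ) ^ 2 - (x.2 : ℚ) ^ 2) /
            (J : ℚ) ^ 2) := mul_le_mul_of_nonneg_right h1 h3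
        _ ≤ (J : ℚ) ^ 2 := by rw [one_mul]; exact h2

private theorem card_eq (σ : ℚ) (J : ℕ) : (Ix σ J).card = ∑ x ∈ nd J, mlt σ J x := by
  unfold Ix
  rw [card_sigma]
  exact sum_congr rfl fun x _ => card_range _

private theorem card_nd (J : ℕ) : (nd J).card = (2 * J + 1) ^ 2 := by
  unfold nd
  rw [card_product, Int.card_Icc]
  have h1 : ((J : ℤ) + 1 - -(J : ℤ)).toNat = 2 * J + 1 := by omega
  rw [h1]
  ring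

private theorem upper (σ : ℚ) (h0 : 0 ≤ σ) (h1 : σ ≤ 1) (J : ℕ) (hJ : 1 ≤ J) :
    ((Ix σ J).card : ℚ) ≤ σ * (16 / 9) * (J : ℚ) ^ 4 := by
  rw [card_eq, Nat.cast_sum]
  have h2 : ∑ x ∈ nd J, (mlt σ J x : ℚ) ≤ ∑ x ∈ nd J, σ * (((J : ℚ) ^ 2 - (x.1 : ℚ) ^ 2) *
      ((J : ℚ) ^ 2 - (x.2 : ℚ) ^ 2) / (J : ℚ) ^ 2) :=
    sum_le_sum fun x hx => Nat.floor_le (arg_bd J σ h0 h1 x hx).1
  rw [sum_two J hJ] at h2
  refine h2.trans ?_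
  have hJ' : (1 : ℚ) ≤ J := by exact_mod_cast hJ
  have h3 : (4 * (J : ℚ) ^ 2 - 1) ^ 2 / 9 ≤ 16 / 9 * (J : ℚ) ^ 4 := by nlinarith
  calc σ * ((4 * (J : ℚ) ^ 2 - 1) ^ 2 / 9) ≤ σ * (16 / 9 * (J : ℚ) ^ 4) :=
        mul_le_mul_of_nonneg_left h3 h0
    _ = _ := by ring

private theorem lower (σ : ℚ) (h0 : 0 ≤ σ) (h1 : σ ≤ 1) (J : ℕ) (hJ : 1 ≤ J) :
    σ * (16 / 9) * (J : ℚ) ^ 4 - 10 * (J : ℚ) ^ 2 ≤ ((Ix σ J).card : ℚ) := by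
  rw [card_eq, Nat.cast_sum]
  have h2 : ∑ x ∈ nd J, (σ * (((J : ℚ) ^ 2 - (x.1 : ℚ) ^ 2) *
      ((J : ℚ) ^ 2 - (x.2 : ℚ) ^ 2) / (J : ℚ) ^ 2) - 1) ≤ ∑ x ∈ nd J, (mlt σ J x : ℚ) :=
    sum_le_sum fun x _ => (Nat.sub_one_lt_floor _).le
  rw [sum_sub_distrib, sum_two J hJ, sum_const, nsmul_eq_mul, mul_one, card_nd] at h2
  refine le_trans ?_ h2
  have hJ' : (1 : ℚ) ≤ J := by exact_mod_cast hJ
  have h3 : 16 / 9 * (J : ℚ) ^ 4 - 8 / 9 * (J : ℚ) ^ 2 ≤ (4 * (J : ℚ) ^ 2 - 1) ^ 2 / 9 := by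
    nlinarith
  have h4 : σ * (16 / 9 * (J : ℚ) ^ 4 - 8 / 9 * (J : ℚ) ^ 2) ≤
      σ * ((4 * (J : ℚ) ^ 2 - 1) ^ 2 / 9) := mul_le_mul_of_nonneg_left h3 h0
  have h5 : σ * (8 / 9 * (J : ℚ) ^ 2) ≤ 1 * (8 / 9 * (J : ℚ) ^ 2) :=
    mul_le_mul_of_nonneg_right h1 (by positivity)
  push_cast
  nlinarith

/-- Row CARD -/
theorem pf_CARD : T_CARD := by
  have a0 : (0 : ℚ) ≤ s0 := by norm_num [s0]
  have a1 : s0 ≤ (1 : ℚ) := by norm_num [s0]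
  have b0 : (0 : ℚ) ≤ s1 := by norm_num [s1]
  have b1 : s1 ≤ (1 : ℚ) := by norm_num [s1]
  refine ⟨fun J hJ => ?_, fun J hJ => ?_, fun J hJ => ?_, ⟨10 ^ 5, fun J hJ => ?_⟩,
    fun J x hx => ?_⟩
  · have h1 := upper s0 a0 a1 J hJ
    have h2 : ((Ix s0 J).card : ℚ) ≤ 2 / 1125 * (J : ℚ) ^ 4 := by
      refine h1.trans (le_of_eq ?_)
      norm_num [s0]
    have h9 := (Rat.cast_le (K := ℝ)).2 h2
    push_cast at h9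
    exact h9
  · have h1 := upper s1 b0 b1 J hJ
    have h2 : ((Ix s1 J).card : ℚ) ≤ 1001 / 1000 * (2 / 1125) * (J : ℚ) ^ 4 := by
      refine h1.trans (le_of_eq ?_)
      norm_num [s1]
    have h9 := (Rat.cast_le (K := ℝ)).2 h2
    push_cast at h9
    exact h9
  · have h1 := lower s0 a0 a1 J hJ
    have h2 : 2 / 1125 * (J : ℚ) ^ 4 - 10 * (J : ℚ) ^ 2 ≤ ((Ix s0 J).card : ℚ) := by
      refine le_trans (le_of_eq ?_) h1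
      norm_num [s0]
    have h9 := (Rat.cast_le (K := ℝ)).2 h2
    push_cast at h9
    exact h9
  · have h1 := lower s1 b0 b1 J (le_trans (by norm_num) hJ)
    have hJ' : (10 ^ 5 : ℚ) ≤ J := by exact_mod_cast hJ
    have h3 : (10 ^ 5 : ℚ) ^ 2 ≤ (J : ℚ) ^ 2 := pow_le_pow_left₀ (by norm_num) hJ' 2
    have h4 : (10 ^ 5 : ℚ) ^ 2 * (J : ℚ) ^ 2 ≤ (J : ℚ) ^ 4 := by
      have : (J : ℚ) ^ 4 = (J : ℚ) ^ 2 * (J : ℚ) ^ 2 := by ring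
      rw [this]
      exact mul_le_mul_of_nonneg_right h3 (by positivity)
    have h2 : 10009 / 10000 * (2 / 1125) * (J : ℚ) ^ 4 ≤ ((Ix s1 J).card : ℚ) := by
      refine le_trans ?_ h1
      have h5 : s1 * (16 / 9) = 1001 / 1000 * (2 / 1125) := by norm_num [s1]
      rw [h5]
      linarith
    have h9 := (Rat.cast_le (K := ℝ)).2 h2
    push_cast at h9
    exact h9
  · constructor
    · unfold mlt
      refine Nat.floor_le_of_le ?_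
      have := (arg_bd J s0 a0 a1 x hx).2
      push_cast
      exact this
    · unfold mlt
      refine Nat.floor_le_of_le ?_
      have := (arg_bd J s1 b0 b1 x hx).2
      push_cast
      exact this

end Pool.Agent.H54.EE5.CARD
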